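import Pool.Agent.Q196.NP.LinR

/-!
# MP_8e98f2_gt, Q1: a criterion for diffeomorphisms of the 4-sphere to be isotopic to the identity

Let `φ` be a diffeomorphism of the sphere `Sⁿ`, `n ≥ 1`, for example the implantation of a barbell in
`S⁴`, and let `F₁ : ℝⁿ⁺¹ → ℝⁿ⁺¹` be a positively homogeneous map, smooth off the origin, which
induces `φ`.  There is a constant `ε(n) > 0` such that `φ` is smoothly isotopic to the
diffeomorphism induced by a linear isomorphism `A` (and to the identity, if `det A > 0`) as soon as `F₁` is joined to `A` by a path of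
continuous positively homogeneous maps `F_t` each of which is `ε ρ`-close to linear maps on the balls
of ONE radius `ρ ≤ 1/2` around the unit vectors (after a linear change of the target, which may depend
on the time and on the point in an arbitrary way).  The maps `F_t`, `0 < t < 1`, need not be injective
and may be nowhere differentiable; only `F₁` has to be close to linear maps at all scales `≤ ρ`.

For example this is the case if `F_t`, `0 ≤ t ≤ 1`, is a `C¹` path of homogeneous maps with invertible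
derivatives off the origin.

The proof smooths the path by a convolution of radius `ρ` on the unit sphere, extended homogeneously,
and then lets the radius tend to zero at `t = 1`.  Homogeneous local diffeomorphisms joined to the
identity are bijective.
-/

set_option autoImplicit false

open Set Metric Function
open scoped ContDiff Manifold

noncomputable section

namespace Pool.Agent.Results.MP_8e98f2_gt.NearlyLinearHomotopy

/-- Euclidean space -/
abbrev E (m : ℕ) : Type := EuclideanSpace ℝ (Fin m)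

/-- the unit sphere of dimension `n` -/
abbrev Sph (n : ℕ) : Type := sphere (0 : E (n + 1)) 1

/-- `F` is positively homogeneous -/
def Homogeneous {n : ℕ} (F : E (n + 1) → E (n + 1)) : Prop :=
  ∀ r : ℝ, 0 ≤ r → ∀ v, F (r • v) = r • F v

/-- `F` induces the map `φ` of the sphere: `φ x = F x / |F x|` -/
def Induces {n : ℕ} (F : E (n + 1) → E (n + 1)) (φ : Sph n → Sph n) : Prop :=
  ∀ x : Sph n, ∃ r : ℝ, 0 < r ∧ F x = r • (φ x : E (n + 1))

/-- on the ball of radius `r` around `v` the map `F` is `ε r`-close to an affine map after a linear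
change of the target -/
def CloseToLinear {n : ℕ} (ε : ℝ) (F : E (n + 1) → E (n + 1)) (v : E (n + 1)) (r : ℝ) : Prop :=
  ∃ L : E (n + 1) →L[ℝ] E (n + 1), ∀ w, ‖w‖ ≤ r → ‖L (F (v + w) - F v) - w‖ ≤ ε * r

/-- the map `v ↦ M v` -/
def mat {n : ℕ} (M : Matrix (Fin (n + 1)) (Fin (n + 1)) ℝ) (v : E (n + 1)) : E (n + 1) :=
  WithLp.toLp 2 (M.mulVec v)

/-- `φ` is a diffeomorphism of the sphere -/
def IsDiffeo {n : ℕ} (φ : Sph n → Sph n) : Prop :=
  ContMDiff (𝓡 n) (𝓡 n) ∞ φ ∧ ∃ ψ : Sph n → Sph n, ContMDiff (𝓡 n) (𝓡 n) ∞ ψ ∧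
    LeftInverse ψ φ ∧ RightInverse ψ φ

/-- a smooth isotopy of the sphere from `φ₀` to `φ₁` -/
def SmoothlyIsotopic {n : ℕ} (φ₀ φ₁ : Sph n → Sph n) : Prop :=
  ∃ K : ℝ × Sph n → Sph n, ContMDiff (𝓘(ℝ, ℝ).prod (𝓡 n)) (𝓡 n) ∞ K ∧
    (∀ x, K (0, x) = φ₀ x) ∧ (∀ x, K (1, x) = φ₁ x) ∧ ∀ t : ℝ, IsDiffeo fun x => K (t, x)

/-- `F t`, `0 ≤ t ≤ 1`, is a continuous path of homogeneous maps, close to linear ones at the
scale `ρ` -/
structure NearlyLinearPath {n : ℕ} (ε ρ : ℝ) (F : ℝ → E (n + 1) → E (n + 1)) : Prop where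
  cont : ContinuousOn (uncurry F) (Icc (0 : ℝ) 1 ×ˢ univ)
  hom : ∀ t ∈ Icc (0 : ℝ) 1, Homogeneous (F t)
  near : ∀ t ∈ Icc (0 : ℝ) 1, ∀ v, ‖v‖ = 1 → CloseToLinear ε (F t) v ρ

/-- `F` is smooth off the origin and close to linear maps at all scales up to `ρ` -/
structure SmoothNearlyLinear {n : ℕ} (ε ρ : ℝ) (F : E (n + 1) → E (n + 1)) : Prop where
  smooth : ContDiffOn ℝ ∞ F {0}ᶜ
  near : ∀ v, ‖v‖ = 1 → ∀ r, 0 < r → r ≤ ρ → CloseToLinear ε F v r

/-- `φ` is smoothly isotopic to the diffeomorphism `x ↦ M x / |M x|` -/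
def IsotopicToLinear {n : ℕ} (M : Matrix (Fin (n + 1)) (Fin (n + 1)) ℝ) (φ : Sph n → Sph n) :
    Prop :=
  ∃ α : Sph n → Sph n, Induces (mat M) α ∧ SmoothlyIsotopic α φ

lemma IsDiffeo.exists {n : ℕ} {φ : Sph n → Sph n} (h : IsDiffeo φ) :
    ∃ D : Diffeomorph (𝓡 n) (𝓡 n) (Sph n) (Sph n) ∞, ∀ x, D x = φ x := by
  obtain ⟨h1, ψ, h2, h3, h4⟩ := h
  exact ⟨⟨⟨φ, ψ, h3, h4⟩, h1, h2⟩, fun x => rfl⟩

lemma isDiffeo_of {n : ℕ} {φ : Sph n → Sph n} (D : Diffeomorph (𝓡 n) (𝓡 n) (Sph n) (Sph n) ∞)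
    (h : ∀ x, D x = φ x) : IsDiffeo φ := by
  have h1 : φ = D := funext fun x => (h x).symm
  rw [h1]
  exact ⟨D.contMDiff, D.symm, D.symm.contMDiff, D.left_inv, D.right_inv⟩

lemma mat_eq {n : ℕ} (M : Matrix (Fin (n + 1)) (Fin (n + 1)) ℝ) (v : E (n + 1)) :
    mat M v = Pool.Agent.Q196.NP.TM M v := by
  unfold Pool.Agent.Q196.NP.TM
  rw [← Matrix.toEuclideanLin_eq_toLin_orthonormal]
  rfl

/-- Diffeomorphisms of the sphere whose homogeneous extension is joined to a linear isomorphism by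
continuous homogeneous maps, close to linear ones at one scale, are smoothly isotopic to linear
ones. -/
theorem result (n : ℕ) (hn : 1 ≤ n) : ∃ ε : ℝ, 0 < ε ∧
    ∀ (φ : Sph n → Sph n) (M : Matrix (Fin (n + 1)) (Fin (n + 1)) ℝ)
      (F : ℝ → E (n + 1) → E (n + 1)) (ρ : ℝ),
      IsDiffeo φ → M.det ≠ 0 → 0 < ρ → ρ ≤ 1 / 2 → F 0 = mat M → Induces (F 1) φ →
      NearlyLinearPath ε ρ F → SmoothNearlyLinear ε ρ (F 1) →
      IsotopicToLinear M φ ∧ (0 < M.det → SmoothlyIsotopic id φ) := by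
  refine ⟨Pool.Agent.Q196.NP.eps (E (n + 1)), Pool.Agent.Q196.NP.eps_pos, ?_⟩
  rintro φ M F ρ hφ hM hρ hρ1 h0' hind' ⟨hFc, hhom, hnr⟩ ⟨hsm, hn1⟩
  obtain ⟨Dφ, hDφ⟩ := hφ.exists
  obtain ⟨A, hAM⟩ := Pool.Agent.Q196.NP.TM_equiv hM
  have hMA : mat M = A := funext fun v => (mat_eq M v).trans (hAM v).symm
  have h0 : ∀ v, F 0 v = A v := fun v => by rw [h0', hMA]
  have hφD : φ = Dφ := funext fun x => (hDφ x).symm
  have hind : Induces (F 1) Dφ := by rw [← hφD]; exact hind'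
  rw [hφD]
  clear hind' h0' hDφ
  have h11 : (1 : ℝ) ∈ Icc (0 : ℝ) 1 := ⟨zero_le_one, le_rfl⟩
  -- the extended family, composed with the inverse of `A`
  let H : ℝ → E (n + 1) → E (n + 1) := fun t v => A.symm (F (projIcc (0:ℝ) 1 zero_le_one t) v)
  have hHc : Continuous (uncurry H) := by
    have h1 : Continuous fun p : ℝ × E (n + 1) => (((projIcc (0:ℝ) 1 zero_le_one p.1 : ℝ)), p.2) :=
      (continuous_subtype_val.comp (continuous_projIcc.comp continuous_fst)).prodMk continuous_snd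
    exact A.symm.continuous.comp
      (hFc.comp_continuous h1 fun p => ⟨(projIcc (0:ℝ) 1 zero_le_one p.1).2, mem_univ _⟩)
  have hH0 : H 0 = fun v => v := by
    funext v
    show A.symm (F (projIcc (0:ℝ) 1 zero_le_one 0) v) = v
    rw [projIcc_left]
    exact (congrArg A.symm (h0 v)).trans (A.symm_apply_apply v)
  have hH1 : H 1 = fun v => A.symm (F 1 v) := by
    funext v
    show A.symm (F (projIcc (0:ℝ) 1 zero_le_one 1) v) = A.symm (F 1 v)
    rw [projIcc_right]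
  have hhomH : ∀ t, ∀ r : ℝ, 0 ≤ r → ∀ v, H t (r • v) = r • H t v := by
    intro t r hr v
    show A.symm (F (projIcc (0:ℝ) 1 zero_le_one t) (r • v)) =
      r • A.symm (F (projIcc (0:ℝ) 1 zero_le_one t) v)
    rw [hhom _ (projIcc (0:ℝ) 1 zero_le_one t).2 r hr v, map_smul]
  have hsm1 : ContDiffOn ℝ ∞ (fun v => A.symm (F 1 v)) {0}ᶜ :=
    (A.symm : E (n + 1) →L[ℝ] E (n + 1)).contDiff.comp_contDiffOn hsm
  have hHD : Pool.Agent.Q196.NP.HD ∅ (fun v => A.symm (F 1 v)) := by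
    refine ⟨?_, ?_, ?_⟩
    · intro r hr0 v
      have h1 := hhomH 1 r hr0 v
      rwa [hH1] at h1
    · intro R hR v
      exact absurd hR (notMem_empty R)
    · intro v hv
      obtain ⟨B, hB⟩ := Pool.Agent.Q196.NP.sphere_der (φ := Dφ) (hhom 1 h11) hsm hind hv
      exact ⟨B.trans A.symm, (A.symm.hasFDerivAt (x := F 1 v)).comp v hB⟩
  have hnear : ∀ (f : E (n + 1) → E (n + 1)) (v : E (n + 1)) (r : ℝ),
      CloseToLinear (Pool.Agent.Q196.NP.eps (E (n + 1))) f v r →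
      Pool.Agent.Q196.NP.Near (Pool.Agent.Q196.NP.eps (E (n + 1))) (fun v => A.symm (f v)) v r := by
    rintro f v r ⟨L, hL⟩
    refine ⟨L.comp (A : E (n + 1) →L[ℝ] E (n + 1)), fun w hw => ?_⟩
    have h1 := hL w hw
    have h2 : (L.comp (A : E (n + 1) →L[ℝ] E (n + 1)))
        (A.symm (f (v + w)) - A.symm (f v)) = L (f (v + w) - f v) := by
      show L (A (A.symm (f (v + w)) - A.symm (f v))) = _
      rw [map_sub, A.apply_symm_apply, A.apply_symm_apply]
    rw [h2]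
    exact h1
  have key : Pool.Agent.Q196.NP.Iso ∅ (fun v => v) (H 1) := by
    refine Pool.Agent.Q196.NP.iso_of_near hHc hhomH (fun t R hR => absurd hR (notMem_empty R))
      hρ hρ1 ?_ hH0 ?_ ?_ ?_
    · intro t v hv
      exact hnear _ _ _ (hnr _ (projIcc (0:ℝ) 1 zero_le_one t).2 v hv)
    · rw [hH1]; exact hsm1
    · rw [hH1]; exact hHD
    · rw [hH1]
      exact fun v hv r hr hr1 => hnear _ _ _ (hn1 v hv r hr hr1)
  rw [hH1] at key
  -- the linear diffeomorphism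
  have hAH : Pool.Agent.Q196.NP.HD (∅ : Set (E (n + 1) ≃ₗᵢ[ℝ] E (n + 1))) A :=
    ⟨fun r _ v => map_smul A r v, fun R hR => absurd hR (notMem_empty R),
      fun v _ => ⟨A, A.hasFDerivAt⟩⟩
  have hAs : ContDiffOn ℝ ∞ A {0}ᶜ := (A : E (n + 1) →L[ℝ] E (n + 1)).contDiff.contDiffOn
  obtain ⟨α, hα⟩ := Pool.Agent.Q196.NP.exists_diffeo hAH hAs A.bijective
  have hAind : Induces A α := by
    intro x
    have hx : A x ≠ 0 := hAH.ne_zero (Pool.Agent.Q196.NP.Sn.ne_zero x)
    refine ⟨‖A x‖, norm_pos_iff.2 hx, ?_⟩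
    rw [hα x]
    show A x = ‖A x‖ • ‖A x‖⁻¹ • A x
    rw [smul_smul, mul_inv_cancel₀ (norm_ne_zero_iff.2 hx), one_smul]
  -- the isotopy from the identity to `α⁻¹ φ`
  have hind' : ∀ x : Sph n, ∃ r : ℝ, 0 < r ∧
      (fun v => A.symm (F 1 v)) (x : E (n + 1)) = r • ((α.symm (Dφ x) : Sph n) : E (n + 1)) := by
    intro x
    obtain ⟨r, hr, h⟩ := hind x
    obtain ⟨s, hs, h'⟩ := hAind (α.symm (Dφ x))
    refine ⟨r * s⁻¹, by positivity, ?_⟩
    have h3 : (α (α.symm (Dφ x)) : Sph n) = Dφ x := α.apply_symm_apply _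
    rw [h3] at h'
    show A.symm (F 1 x) = _
    rw [h, map_smul, mul_smul]
    congr 1
    rw [ContinuousLinearEquiv.symm_apply_eq, map_smul, h', smul_smul, inv_mul_cancel₀ hs.ne',
      one_smul]
  obtain ⟨K, k1, k2, k3, k4⟩ :=
    Pool.Agent.Q196.NP.sphere_isotopy hn (φ := fun x => α.symm (Dφ x)) hind' key
  refine ⟨⟨α, by rw [hMA]; exact hAind, fun p => α (K p), α.contMDiff.comp k1, fun x => ?_,
    fun x => ?_, fun t => ?_⟩, fun hdet => ?_⟩
  · show α (K (0, x)) = α x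
    rw [k2]
  · show α (K (1, x)) = Dφ x
    rw [k3]
    exact α.apply_symm_apply _
  · obtain ⟨D, hD⟩ := k4 t
    exact isDiffeo_of (D.trans α) fun x => congrArg α (hD x)
  · have hdet' : 0 < LinearMap.det ((A : E (n + 1) →L[ℝ] E (n + 1)) : E (n + 1) →ₗ[ℝ] E (n + 1)) := by
      have h6 : ((A : E (n + 1) →L[ℝ] E (n + 1)) : E (n + 1) →ₗ[ℝ] E (n + 1)) =
          Pool.Agent.Q196.NP.TM M := LinearMap.ext hAM
      rw [h6, Pool.Agent.Q196.NP.TM_det]
      exact hdet
    have key2 := (Pool.Agent.Q196.NP.iso_linear_real A hdet').trans (key.left_comp_real A)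
    have h5 : (fun v => A (A.symm (F 1 v))) = F 1 := funext fun v => A.apply_symm_apply _
    rw [h5] at key2
    obtain ⟨K, k1, k2, k3, k4⟩ := Pool.Agent.Q196.NP.sphere_isotopy hn hind key2
    refine ⟨K, k1, k2, k3, fun t => ?_⟩
    obtain ⟨D, hD⟩ := k4 t
    exact isDiffeo_of D hD

end Pool.Agent.Results.MP_8e98f2_gt.NearlyLinearHomotopy
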