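import Pool.Agent.Q235.NL.IsoPath

/-!
# Topological isotopies of the 4-sphere which are close to linear at all small scales

The implantation of a barbell in `S⁴` is a diffeomorphism of `ℝ⁴ = S⁴ ∖ {pt}` with compact support,
and every such diffeomorphism is topologically isotopic to the identity with compact support
(Alexander). There is a universal `ε > 0` such that two diffeomorphisms of `ℝ⁴` with compact
support are smoothly isotopic, with compact support, as soon as they are joined by one topological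
isotopy `H` which at all small scales `r` is `ε r`-close to linear maps (after a linear change of
the target, which may depend in an arbitrary way on the time, the point and the scale). The smooth
isotopy has its support in any given neighbourhood of that of `H`.
-/

set_option autoImplicit false

open Set Filter Topology Metric Function
open scoped Manifold ContDiff

namespace Pool.Agent.Results.MP_8e98f2_gt.NearlyLinearIsotopy

/-- `ℝ⁴`, the complement of a point of `S⁴` -/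
abbrev R4 : Type := EuclideanSpace ℝ (Fin 4)

/-- diffeomorphism of `ℝ⁴` -/
def IsDiffeo (f : R4 → R4) : Prop :=
  ContDiff ℝ ∞ f ∧ ∃ g : R4 → R4, ContDiff ℝ ∞ g ∧ LeftInverse g f ∧ RightInverse g f

/-- `f` and `g` are smoothly isotopic through diffeomorphisms supported in a compact subset of
`U` -/
def SmoothlyIsotopic (U : Set R4) (f g : R4 → R4) : Prop :=
  ∃ (Φ : ℝ → R4 → R4) (C : Set R4), IsCompact C ∧ C ⊆ U ∧
    ContDiff ℝ ∞ (fun p : ℝ × R4 => Φ p.1 p.2) ∧ (∀ t, IsDiffeo (Φ t)) ∧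
    (∀ t x, x ∉ C → Φ t x = x) ∧ Φ 0 = f ∧ Φ 1 = g

/-- the family `H` is close to linear near `x` at the times near `t`: at all small scales `r` and
all points `z` near `x` there is a linear map `L` such that `L ∘ H s` is `ε r`-close to a
translation on the ball `B(z, r)` -/
def CloseToLinear (ε : ℝ) (H : ℝ → R4 → R4) (t : ℝ) (x : R4) : Prop :=
  ∃ ρ : ℝ, 0 < ρ ∧ ∀ s ∈ Icc (0:ℝ) 1, |s - t| < ρ → ∀ z : R4, ‖z - x‖ < ρ →
    ∀ r : ℝ, 0 < r → r < ρ →
      ∃ L : R4 →L[ℝ] R4, ∀ w : R4, ‖w‖ ≤ r → ‖L (H s (z + w) - H s z) - w‖ ≤ ε * r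

open Pool.Agent.Y522 in
theorem IsDiffeo.ld {f : R4 → R4} (h : IsDiffeo f) (x : R4) : LD 4 f x := by
  obtain ⟨hf, g, hg, hgf, -⟩ := h
  refine LD_of_bij (Eventually.of_forall fun y => hf.contDiffAt) ?_
  have h1 : HasFDerivAt f (fderiv ℝ f x) x := (hf.differentiable (by simp) x).hasFDerivAt
  have h2 : HasFDerivAt g (fderiv ℝ g (f x)) (f x) :=
    (hg.differentiable (by simp) (f x)).hasFDerivAt
  have h3 := h2.comp x h1
  have h4 : g ∘ f = _root_.id := funext hgf
  rw [h4] at h3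
  have h5 := h3.unique (hasFDerivAt_id x)
  have hinj : Injective (fderiv ℝ f x) := by
    intro v w hvw
    have e1 := DFunLike.congr_fun h5 v
    have e2 := DFunLike.congr_fun h5 w
    rw [ContinuousLinearMap.comp_apply] at e1 e2
    rw [hvw] at e1
    exact e1.symm.trans e2
  exact ⟨hinj, (LinearMap.injective_iff_surjective (f := (fderiv ℝ f x : R4 →ₗ[ℝ] R4))).1 hinj⟩

theorem result : ∃ ε : ℝ, 0 < ε ∧ ∀ (H : ℝ → R4 → R4) (K U : Set R4), IsCompact K → IsOpen U →
    K ⊆ U → ContinuousOn (fun p : ℝ × R4 => H p.1 p.2) (Icc (0:ℝ) 1 ×ˢ univ) →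
    (∀ t ∈ Icc (0:ℝ) 1, ∀ x, x ∉ K → H t x = x) → IsDiffeo (H 0) → IsDiffeo (H 1) →
    (∀ t ∈ Icc (0:ℝ) 1, ∀ x ∈ K, CloseToLinear ε H t x) → SmoothlyIsotopic U (H 0) (H 1) := by
  refine ⟨Pool.Agent.Q235.NL.eps 4, Pool.Agent.Q235.NL.eps_pos, ?_⟩
  intro H K U hK hU hKU hH hid h0 h1 hnear
  obtain ⟨Φ, C, hC, hCU, hs, hL, hidΦ, e0, e1⟩ := Pool.Agent.Q235.NL.iso_path 4 hH hK hU hKU hid
    (fun t ht x hx => hnear t ht x hx) h0.1 h0.ld h1.1 h1.ld
  refine ⟨Φ, C, hC, hCU, hs, fun t => ?_, hidΦ, e0 0 le_rfl, e1 1 le_rfl⟩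
  obtain ⟨hi, hr⟩ := Pool.Agent.Y702.SH.coverV 4 (EuclideanSpace ℝ (Fin 4)) (fun x => x) (Φ t) C
    IsOpenEmbedding.id (by rw [range_id']; exact isPreconnected_univ) hC (hidΦ t)
    (fun p => ⟨Φ t p, rfl⟩) (hL t)
  rw [range_id'] at hr
  obtain ⟨hG, hK⟩ := Pool.Agent.Y522.smooth_inverse ⟨hi, range_eq_univ.1 hr⟩ (hL t)
  exact ⟨hG, hK⟩

end Pool.Agent.Results.MP_8e98f2_gt.NearlyLinearIsotopy
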